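import Pool.Agent.X281.SE.Bir2

/-!
# The birational section conjecture for families of superelliptic curves, over all extensions

Let `K` be a number field, `c ∈ K[t]`, `f_i ∈ K[t][x]` finitely many polynomials, `e_i ≥ 0`, `D ≥ 2`, and
let `θ ∈ K̄` be a simple zero of `c` such that `∏ f_i(θ, x)` is separable of the same degree in `x` as
`∏ f_i` and some `σ ∈ Gal(K̄/K(θ))` permutes its roots in cycles of lengths divisible by `gcd(2, D) D`.
We prove that for all `t ∈ O_K` outside a set of density zero the following holds for ALL finite
extensions `L` of `K` and all integers `m` such that `D` does not divide `m [L : K]`, and all `n`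
divisible by `D`: the curve over `L`

  `X : c(t)^m yⁿ = ∏ f_i(t, x)^(e_i)`

has no point over `L`, and there is no birational section, that is, no section of `Gal(Ω/F) → G_L`, where
`F = L(X)` is the function field; the same is true for the function fields of all curves (or varieties)
over `L` that dominate `X`.  In fact already a small quotient of `Gal(Ω/F)` has no section: let `M` be
generated over `F` by the algebraic closure of `L` and by the roots of order `D` of the functions
`(x - ρ)/(x - ρ')`, `ρ` and `ρ'` being roots of `∏ f_i(t, x)`.  The group `Gal(M/F L̄)` is abelian of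
exponent `D`, and `Gal(M/F) → G_L` has no section.

So for one and the same `t` the birational section conjecture holds for `X` over all these `L` at once,
without points and sections.  The exponents `e_i` are arbitrary, they need not be prime to `D`, so that
the curves have any types of ramification over the roots.  The set of the exceptional `t` has density
zero in a strong sense: for every `ε > 0` there is an ideal `I ≠ 0` such that the exceptional `t` lie in
at most `ε #(O_K/I)` residue classes modulo `I`.

Proof.  By Chebotarev almost all `t` have a prime `v` of degree one with `v(c(t)) = 1` at which the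
`f_i(t, x)` are integral with unit leading coefficients, such that `∏ f_i(t, x)` is separable modulo `v`
and the Frobenius element permutes its roots in cycles of lengths divisible by `gcd(2, D) D`.  Let `l` be
a prime number with `v_l(m [L : K]) < v_l(D)`.  There is a place `w` of `L` over `v` with
`v_l(e f) ≤ v_l([L : K])` for its ramification index `e` and residue degree `f`; put
`ℓ = l^(1 + v_l(e m))`, a divisor of `D`.  Then the valuation `e m` of `c(t)^m` at `w` is not divisible by
`ℓ`, and the irreducible factors of `∏ f_i(t, x)` over the residue field of `w` have degrees divisible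
by `gcd(2, ℓ) ℓ`.  By the lemma of Gauss the monic multiples of the `f_i(t, x)` are integral at `w`, and the
local theorem of `MP_8312c9_nt.FactorDegrees` applies at `w`.
-/

open Polynomial NumberField

namespace Pool.Agent.Results.MP_8312c9_nt.BirationalFamilies

universe u v w y

section definitions

variable (k : Type u) (F : Type v) (Ω : Type w) [Field k] [Field F] [Field Ω] [Algebra k F]
  [Algebra F Ω] [Algebra k Ω]

/-- The map `τ : M → M` acts as `σ : K → K` on the elements that the fields `K` and `M` have in
common when they are regarded as subfields of `Ω` through `i` and `j`. -/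
def ActsAs {K M Ω : Type*} [Field K] [Field M] [Field Ω] (i : K →+* Ω) (j : M →+* Ω) (σ : K → K)
    (τ : M → M) : Prop :=
  ∀ c z, j z = i c → j (τ z) = i (σ c)

/-- Let `k ⊆ K ⊆ Ω` and `F ⊆ M ⊆ Ω` be fields.  A splitting of `Gal(M/F) → Gal(K/k)`: a continuous
homomorphism `s` from `Gal(K/k)` to `Gal(M/F)` such that `s(σ)` acts as `σ` on the elements of
`K ∩ M`. -/
structure Splitting (K M : Type*) [Field K] [Field M] [Algebra k K] [Algebra F M] [Algebra K Ω]
    [Algebra M Ω] where
  /-- the homomorphism `Gal(K/k) → Gal(M/F)` -/
  toHom : (K ≃ₐ[k] K) →* (M ≃ₐ[F] M)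
  cont : Continuous toHom
  compat : ∀ σ : K ≃ₐ[k] K, ActsAs (algebraMap K Ω) (algebraMap M Ω) σ (toHom σ)

end definitions

/-- The smooth projective curve with the affine equation `a yⁿ = f(x)` has no point over `k`: neither
over the affine line, nor at infinity, where the points over `k` correspond to the solutions of
`a r^g = c` with `g = gcd(n, deg f)` and `c` the leading coefficient of `f`.  (If `f` has no root in
`k`, then all points over the affine line are given by solutions of the affine equation.) -/
def NoPoint {k : Type u} [Field k] (n : ℕ) (a : k) (f : k[X]) : Prop :=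
  (¬ ∃ x y : k, a * y ^ n = f.eval x) ∧ ¬ ∃ r : k, a * r ^ Nat.gcd n f.natDegree = f.leadingCoeff

/-- The extension `M` of `F` in `Ω` contains the algebraic closure of `k` and, for all roots `θ`, `θ'`
of the polynomial `P`, a root of order `d` of `(x - θ)/(x - θ')`. -/
def ContainsRoots {k : Type u} {F : Type v} {Ω : Type w} [Field k] [Field F] [Field Ω]
    [Algebra k F] [Algebra F Ω] [Algebra k Ω] (d : ℕ) (P : k[X]) (x : F)
    (M : IntermediateField F Ω) : Prop :=
  (∀ c : algebraicClosure k Ω, (c : Ω) ∈ M) ∧ ∀ θ θ' : Ω, aeval θ P = 0 → aeval θ' P = 0 →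
    ∃ z ∈ M, z ^ d = (algebraMap F Ω x - θ) / (algebraMap F Ω x - θ')

/-- Let `F` be any field over `k` that contains a point `(x, y)` of the curve `a yⁿ = f(x)` and let
`Ω` be an algebraic closure of `F`.  If the extension `M` of `F` in `Ω` contains the algebraic closure
of `k` and the roots of order `d` of the functions `(x - θ)/(x - θ')`, then there is no section of
`Gal(M/F) → G_k`.  (For `M = Ω` these are the birational sections.) -/
def NoKummerSection {k : Type u} [Field k] (d n : ℕ) (a : k) (P f : k[X]) : Prop :=
  ∀ (F : Type v) (Ω : Type w) [Field F] [Field Ω] [Algebra k F] [Algebra F Ω] [Algebra k Ω]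
    [IsScalarTower k F Ω] [IsAlgClosure F Ω] (x y : F) (M : IntermediateField F Ω),
    algebraMap k F a * y ^ n = aeval x f → ContainsRoots d P x M →
      IsEmpty (Splitting k F Ω (algebraicClosure k Ω) M)

/-- The polynomial `f(t, x)` in `x`, for `f ∈ K[t][x]` and an element `t` of a field `B` over `K`. -/
noncomputable def member {K : Type u} [Field K] (f : K[X][X]) {B : Type*} [Field B] [Algebra K B]
    (t : B) : B[X] :=
  f.map (eval₂RingHom (algebraMap K B) t)

/-- Some element `σ` of the Galois group of `K` fixes `θ` and permutes the roots of `f(θ, x)` in cycles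
of lengths divisible by `N`. -/
def HasElement {K : Type u} [Field K] (N : ℕ) (f : K[X][X]) (θ : AlgebraicClosure K) : Prop :=
  ∃ σ : AlgebraicClosure K ≃ₐ[K] AlgebraicClosure K, σ θ = θ ∧
    ∀ n : ℕ, ¬ N ∣ n → ∀ ρ, (member f θ).eval ρ = 0 → (σ ^ n) ρ ≠ ρ

/-- For all finite extensions `L` of `K` and integers `m` such that `D` does not divide `m [L : K]`, and
all `n` divisible by `D`, the curve `a^m yⁿ = ∏ p_i(x)^(e_i)` has no points over `L`, and there are no
sections of `Gal(M/F) → G_L` for the fields `M` with the roots of order `D` of the functions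
`(x - ρ)/(x - ρ')`, `ρ` and `ρ'` being roots of `∏ p_i`. -/
def Nothing {K : Type u} [Field K] {I : Type} [Fintype I] (D : ℕ) (a : K) (p : I → K[X])
    (e : I → ℕ) : Prop :=
  ∀ (L : Type y) [Field L] [Algebra K L] [FiniteDimensional K L] (m : ℤ),
    ¬ (D : ℤ) ∣ m * (Module.finrank K L : ℤ) → ∀ n : ℕ, D ∣ n →
      NoPoint n (algebraMap K L (a ^ m)) ((∏ i, p i ^ e i).map (algebraMap K L)) ∧
      NoKummerSection.{y, v, w} D n (algebraMap K L (a ^ m)) ((∏ i, p i).map (algebraMap K L))
        ((∏ i, p i ^ e i).map (algebraMap K L))

/-- The integers `t` of `K` for which the assertions are not all true for `c(t)` and the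
`f_i(t, x)`. -/
def Exceptional {K : Type u} [Field K] {I : Type} [Fintype I] (D : ℕ) (c : K[X])
    (f : I → K[X][X]) (e : I → ℕ) : Set (𝓞 K) :=
  {t | ¬ Nothing.{u, v, w, y} D (c.eval (algebraMap (𝓞 K) K t))
    (fun i => member (f i) (algebraMap (𝓞 K) K t)) e}

/-- Density zero: for every `ε > 0` there is an ideal `I ≠ 0` such that `E` lies in at most
`ε #(O_K/I)` residue classes modulo `I`. -/
def DensityZero {K : Type u} [Field K] (E : Set (𝓞 K)) : Prop :=
  ∀ ε : ℝ, 0 < ε → ∃ I : Ideal (𝓞 K), I ≠ ⊥ ∧
    (Set.ncard ((Ideal.Quotient.mk I) '' E) : ℝ) ≤ ε * Nat.card (𝓞 K ⧸ I)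

/-- Let `K` be a number field, `c ∈ K[t]`, `f_i ∈ K[t][x]` and `e_i ≥ 0` for finitely many `i`, `D ≥ 2`,
and let `θ ∈ K̄` be a simple zero of `c` such that `∏ f_i(θ, x)` is separable of the same degree as
`∏ f_i` and some element of `Gal(K̄/K(θ))` permutes its roots in cycles of lengths divisible by
`gcd(2, D) D`.  Then for all `t ∈ O_K` outside a set of density zero, for all finite extensions `L` of
`K` and integers `m` such that `D` does not divide `m [L : K]`, and all `n` divisible by `D`, the smooth
projective curve over `L` with the affine equation `c(t)^m yⁿ = ∏ f_i(t, x)^(e_i)` has no point over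
`L`, and there are no sections of `Gal(M/F) → G_L`, where `F` is the function field of the curve or of
any variety over `L` that dominates it, and `M` is any extension of `F` in an algebraic closure `Ω` that
contains the algebraic closure of `L` and the roots of order `D` of the functions `(x - ρ)/(x - ρ')`,
for instance `M = Ω`. -/
theorem result (K : Type u) [Field K] [NumberField K] (D : ℕ) (hD : 2 ≤ D) (c : K[X])
    (I : Type) [Fintype I] (f : I → K[X][X]) (e : I → ℕ) (θ : AlgebraicClosure K)
    (hc : aeval θ c = 0) (hc' : aeval θ (derivative c) ≠ 0)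
    (hdeg : (member (∏ i, f i) θ).natDegree = (∏ i, f i).natDegree)
    (hsep : (member (∏ i, f i) θ).Separable)
    (h : HasElement (Nat.gcd 2 D * D) (∏ i, f i) θ) :
    DensityZero (Exceptional.{u, v, w, y} D c f e) := by
  have hadm : Pool.Agent.X281.SE.Adm (Nat.gcd 2 D * D) (∏ i, f i) θ := by
    obtain ⟨σ, h1, h2⟩ := h
    refine ⟨σ, h1, fun ρ hρ h3 => ?_, fun _ => h2⟩
    refine h2 1 ?_ ρ hρ (by rw [pow_one]; exact h3)
    intro h4
    have h5 : D ∣ 1 := (Dvd.intro_left _ rfl).trans h4
    have := Nat.le_of_dvd one_pos h5
    omega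
  intro ε hε
  obtain ⟨J, hJ, hJE⟩ := Pool.Agent.X281.SE.bir_density.{u, v, w, y} D hD c f e θ hc hc' hdeg
    hsep hadm ε hε
  refine ⟨J, hJ, le_trans ?_ hJE⟩
  have hfin : Finite (𝓞 K ⧸ J) := Ideal.finiteQuotientOfFreeOfNeBot _ hJ
  have hsub : (Exceptional.{u, v, w, y} D c f e : Set (𝓞 K)) ⊆
      {t : 𝓞 K | ¬ ∀ (L : Type y) [Field L] [Algebra K L] [FiniteDimensional K L] (m : ℤ),
          ¬ (D : ℤ) ∣ m * Module.finrank K L → ∀ n : ℕ, D ∣ n →
          Pool.Agent.X281.SE.BirFine.{v, w, y} D n
            (algebraMap K L (c.eval (algebraMap (𝓞 K) K t) ^ m))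
            ((∏ i, Pool.Agent.X281.SE.fibre (f i) (algebraMap (𝓞 K) K t)).map (algebraMap K L))
            ((∏ i, Pool.Agent.X281.SE.fibre (f i) (algebraMap (𝓞 K) K t) ^ e i).map
              (algebraMap K L))} := by
    intro t ht hfine
    apply ht
    intro L _ _ _ m hm n hDn
    obtain ⟨h1, h2, h3⟩ := hfine L m hm n hDn
    refine ⟨⟨?_, ?_⟩, ?_⟩
    · rintro ⟨x, y, hxy⟩
      exact h1 x y hxy
    · rintro ⟨r, hr⟩
      exact h2 r hr
    · intro F Ω _ _ _ _ _ _ _ x y M hxy hM
      have hcl : IsAlgClosed Ω := IsAlgClosure.isAlgClosed F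
      have halg : Algebra.IsAlgebraic F Ω := IsAlgClosure.isAlgebraic
      have h4 := h3 F Ω M hM.1 x y hxy hM.2
      exact ⟨fun s => h4.false ⟨s.toHom, s.cont, fun σ c z hz => s.compat σ c z hz⟩⟩
  exact_mod_cast Set.ncard_le_ncard (Set.image_mono hsub) (Set.toFinite _)

end Pool.Agent.Results.MP_8312c9_nt.BirationalFamilies
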