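import Pool.Agent.X281.SE.Typ4

/-!
# 100% of all superelliptic curves of a given type have no birational sections, over all extensions

Let `k` be any field finitely generated over `ℚ`, that is, the fraction field of a domain `R` of
characteristic zero that is finitely generated as a ring.  Let `d_i ≥ 1` be given for `i` in a finite
set.  We consider the curves

  `X : a^m yⁿ = ∏ f_i(x)^(e_i)`,   `f_i = c_{i,0} + c_{i,1} x + … + c_{i,d_i} x^(d_i)`,

where ALL coefficients `a`, `c_{i,j}` vary in `R`.  We prove that for all vectors of coefficients
outside a set of density zero `a ≠ 0`, the `f_i` are irreducible of degree `d_i`, the product `∏ f_i` is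
separable, and the following holds for ALL `D ≥ 1` such that `gcd(2, D) D` divides all `d_i`, all
exponents `e_i ≥ 0`, all finite extensions `L` of `k` and all integers `m` such that `D` does not divide
`m [L : k]`, and all `n` divisible by `D`: the curve `X` has no point over `L`, and there is no birational
section, that is, no section of `Gal(Ω/F) → G_L`, where `F = L(X)` is the function field; the same is
true for the function fields of all curves (or varieties) over `L` that dominate `X`.  In fact already a
small quotient of `Gal(Ω/F)` has no section: let `M` be generated over `F` by the algebraic closure of `L`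
and by the roots of order `D` of the functions `(x - ρ)/(x - ρ')`, `ρ` and `ρ'` being roots of `∏ f_i`.
The group `Gal(M/F L̄)` is abelian of exponent `D`, and `Gal(M/F) → G_L` has no section.

So 100% of the curves with given degrees `d_i` satisfy the birational section conjecture over all these
extensions `L` at once and for all exponents `e_i` at once, without points and sections.  The exponents
need not be prime to `D`, so that the curves have any types of ramification over the roots.  The set of
the exceptional vectors has density zero in a strong sense: for every `ε > 0` there is an ideal `I` of `R`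
of finite index such that they lie in at most `ε #(R/I)^N` residue classes modulo `I`, `N` being the
number of coefficients.

In `MP_8312c9_nt.BirationalFamilies` one-parameter families over number fields are considered; the case of
one irreducible polynomial is close to `MP_e66f84_ag.AllCurvesOverExtensions`.

Proof.  Among the vectors over a finite field with `q` elements a positive proportion, bounded below
for large `q`, consists of coefficients of irreducible polynomials of the degrees `d_i` no two of which
are proportional.  By Hilbert's irreducibility theorem, Newton's lemma and a sieve with places of number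
fields almost all vectors over `R` have a discrete valuation ring `A` of `k` with finite residue field at
which `a` is a uniformiser or the inverse of one, and the `f_i` are integral with reductions that are
irreducible of degree `d_i` and coprime.  Let `l` be a prime number with `v_l(m [L : k]) < v_l(D)`.  There is a
discrete valuation ring `B` of `L` above `A` with `v_l(e f) ≤ v_l([L : k])` for its ramification index `e` and
residue degree `f`; put `ℓ = l^(1 + v_l(e m))`, a divisor of `D`.  Then the valuation of `a^m` at `B` is not
divisible by `ℓ`, and the irreducible factors of `∏ f_i` over the residue field of `B` have degrees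
divisible by `gcd(2, ℓ) ℓ`.  By the lemma of Gauss the monic multiples of the `f_i` are integral at `B`, and
the local theorem of `MP_8312c9_nt.FactorDegrees` applies.
-/

open Polynomial

namespace Pool.Agent.Results.MP_8312c9_nt.CurvesOfEveryType

universe u v w y

section definitions

variable (k : Type u) (F : Type v) (Ω : Type w) [Field k] [Field F] [Field Ω] [Algebra k F]
  [Algebra F Ω] [Algebra k Ω]

/-- The map `τ : M → M` acts as `σ : K → K` on the elements that the fields `K` and `M` have in
common when they are regarded as subfields of `Ω` through `i` and `j`. -/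
def ActsAs {K M Ω : Type*} [Field K] [Field M] [Field Ω] (i : K →+* Ω) (j : M →+* Ω) (σ : K → K)
    (τ : M → M) : Prop :=
  ∀ c z, j z = i c → j (τ z) = i (σ c)

/-- Let `k ⊆ K ⊆ Ω` and `F ⊆ M ⊆ Ω` be fields.  A splitting of `Gal(M/F) → Gal(K/k)`: a continuous
homomorphism `s` from `Gal(K/k)` to `Gal(M/F)` such that `s(σ)` acts as `σ` on the elements of
`K ∩ M`. -/
structure Splitting (K M : Type*) [Field K] [Field M] [Algebra k K] [Algebra F M] [Algebra K Ω]
    [Algebra M Ω] where
  /-- the homomorphism `Gal(K/k) → Gal(M/F)` -/
  toHom : (K ≃ₐ[k] K) →* (M ≃ₐ[F] M)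
  cont : Continuous toHom
  compat : ∀ σ : K ≃ₐ[k] K, ActsAs (algebraMap K Ω) (algebraMap M Ω) σ (toHom σ)

end definitions

/-- The smooth projective curve with the affine equation `a yⁿ = f(x)` has no point over `k`: neither
over the affine line, nor at infinity, where the points over `k` correspond to the solutions of
`a r^g = c` with `g = gcd(n, deg f)` and `c` the leading coefficient of `f`.  (If `f` has no root in
`k`, then all points over the affine line are given by solutions of the affine equation.) -/
def NoPoint {k : Type u} [Field k] (n : ℕ) (a : k) (f : k[X]) : Prop :=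
  (¬ ∃ x y : k, a * y ^ n = f.eval x) ∧ ¬ ∃ r : k, a * r ^ Nat.gcd n f.natDegree = f.leadingCoeff

/-- The extension `M` of `F` in `Ω` contains the algebraic closure of `k` and, for all roots `θ`, `θ'`
of the polynomial `P`, a root of order `d` of `(x - θ)/(x - θ')`. -/
def ContainsRoots {k : Type u} {F : Type v} {Ω : Type w} [Field k] [Field F] [Field Ω]
    [Algebra k F] [Algebra F Ω] [Algebra k Ω] (d : ℕ) (P : k[X]) (x : F)
    (M : IntermediateField F Ω) : Prop :=
  (∀ c : algebraicClosure k Ω, (c : Ω) ∈ M) ∧ ∀ θ θ' : Ω, aeval θ P = 0 → aeval θ' P = 0 →
    ∃ z ∈ M, z ^ d = (algebraMap F Ω x - θ) / (algebraMap F Ω x - θ')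

/-- Let `F` be any field over `k` that contains a point `(x, y)` of the curve `a yⁿ = f(x)` and let
`Ω` be an algebraic closure of `F`.  If the extension `M` of `F` in `Ω` contains the algebraic closure
of `k` and the roots of order `d` of the functions `(x - θ)/(x - θ')`, `θ` and `θ'` being roots of `P`,
then there is no section of `Gal(M/F) → G_k`.  (For `M = Ω` these are the birational sections.) -/
def NoKummerSection {k : Type u} [Field k] (d n : ℕ) (a : k) (P f : k[X]) : Prop :=
  ∀ (F : Type v) (Ω : Type w) [Field F] [Field Ω] [Algebra k F] [Algebra F Ω] [Algebra k Ω]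
    [IsScalarTower k F Ω] [IsAlgClosure F Ω] (x y : F) (M : IntermediateField F Ω),
    algebraMap k F a * y ^ n = aeval x f → ContainsRoots d P x M →
      IsEmpty (Splitting k F Ω (algebraicClosure k Ω) M)

/-- The index set of the vectors of coefficients: `none` is the index of the coefficient `a`, and
`some ⟨i, j⟩` with `0 ≤ j ≤ d i` is the index of the coefficient of `x ^ j` in `f_i`. -/
abbrev Index {I : Type} (d : I → ℕ) : Type := Option (Σ i, Fin (d i + 1))

/-- The coefficient `a` of the vector `c`. -/
def coeffA {R : Type} [CommRing R] (k : Type) [Field k] [Algebra R k] {I : Type} {d : I → ℕ}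
    (c : Index d → R) : k :=
  algebraMap R k (c none)

/-- The polynomial `f_i` with the coefficients given by the vector `c`. -/
noncomputable def poly {R : Type} [CommRing R] (k : Type) [Field k] [Algebra R k] {I : Type}
    {d : I → ℕ} (c : Index d → R) (i : I) : k[X] :=
  ∑ j : Fin (d i + 1), C (algebraMap R k (c (some ⟨i, j⟩))) * X ^ (j : ℕ)

/-- For all `D ≥ 1` such that `gcd(2, D) D` divides the degrees of all `f_i`, all exponents `e_i ≥ 0`,
all finite extensions `L` of `k` and integers `m` such that `D` does not divide `m [L : k]`, and all `n`
divisible by `D`, the curve `a^m yⁿ = ∏ f_i(x)^(e_i)` has no points over `L`, and there are no sections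
of `Gal(M/F) → G_L` for the fields `M` with the roots of order `D` of the functions `(x - ρ)/(x - ρ')`,
`ρ` and `ρ'` being roots of `∏ f_i`. -/
def Nothing {k : Type} [Field k] {I : Type} [Fintype I] (a : k) (f : I → k[X]) : Prop :=
  ∀ D : ℕ, 1 ≤ D → (∀ i, Nat.gcd 2 D * D ∣ (f i).natDegree) → ∀ e : I → ℕ,
  ∀ (L : Type y) [Field L] [Algebra k L] [FiniteDimensional k L] (m : ℤ),
    ¬ (D : ℤ) ∣ m * (Module.finrank k L : ℤ) → ∀ n : ℕ, D ∣ n →
      NoPoint n (algebraMap k L (a ^ m)) ((∏ i, f i ^ e i).map (algebraMap k L)) ∧
      NoKummerSection.{y, v, w} D n (algebraMap k L (a ^ m)) ((∏ i, f i).map (algebraMap k L))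
        ((∏ i, f i ^ e i).map (algebraMap k L))

/-- The vectors `c = (a, c_{i,j})` of elements of `R` that do not have the following property: `a ≠ 0`,
the polynomials `f_i` are irreducible of degree `d_i` over `k`, `∏ f_i` is separable, and the assertions
are true for `a` and the `f_i`. -/
def Exceptional (R : Type) [CommRing R] (k : Type) [Field k] [Algebra R k] {I : Type} [Fintype I]
    (d : I → ℕ) : Set (Index d → R) :=
  {c | ¬ (coeffA k c ≠ 0 ∧ (∀ i, (poly k c i).natDegree = d i ∧ Irreducible (poly k c i)) ∧
    (∏ i, poly k c i).Separable ∧ Nothing.{v, w, y} (coeffA k c) (poly k c))}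

/-- Density zero: for every `ε > 0` there is an ideal `J` of `R` of finite index such that `E` lies in at
most `ε #(R/J)ᴺ` residue classes modulo `J`, where `N` is the number of the coordinates of the
vectors. -/
def DensityZero {R : Type} [CommRing R] {ι : Type} [Fintype ι] (E : Set (ι → R)) : Prop :=
  ∀ ε : ℝ, 0 < ε → ∃ J : Ideal R, Finite (R ⧸ J) ∧
    (Set.ncard ((fun (t : ι → R) i => Ideal.Quotient.mk J (t i)) '' E) : ℝ) ≤
      ε * (Nat.card (R ⧸ J) : ℝ) ^ Fintype.card ι

/-- Let `R` be a domain of characteristic zero that is finitely generated as a ring, with fraction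
field `k`; so `k` is any field finitely generated over `ℚ`.  Let `d_i ≥ 1` for `i` in a finite set.  For all
vectors `(a, c_{i,j})`, `0 ≤ j ≤ d_i`, of elements of `R` outside a set of density zero, `a ≠ 0`, the
polynomials `f_i = c_{i,0} + … + c_{i,d_i} x^(d_i)` are irreducible of degree `d_i` over `k` and `∏ f_i` is
separable, and for all `D ≥ 1` such that `gcd(2, D) D` divides all `d_i`, all exponents `e_i ≥ 0`, all finite
extensions `L` of `k` and integers `m` such that `D` does not divide `m [L : k]`, and all `n` divisible by
`D`, the smooth projective curve over `L` with the affine equation `a^m yⁿ = ∏ f_i(x)^(e_i)` has no point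
over `L`, and there are no sections of `Gal(M/F) → G_L`, where `F` is the function field of the curve or of
any variety over `L` that dominates it, and `M` is any extension of `F` in an algebraic closure `Ω` that
contains the algebraic closure of `L` and the roots of order `D` of the functions `(x - ρ)/(x - ρ')`, `ρ`
and `ρ'` roots of `∏ f_i`, for instance `M = Ω`. -/
theorem result (R : Type) [CommRing R] [IsDomain R] [CharZero R] [Algebra.FiniteType ℤ R]
    (k : Type) [Field k] [Algebra R k] [IsFractionRing R k] (I : Type) [Fintype I] (d : I → ℕ)
    (hd : ∀ i, 1 ≤ d i) : DensityZero (Exceptional.{v, w, y} R k d) := by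
  have hcz : CharZero k := charZero_of_injective_algebraMap (IsFractionRing.injective R k)
  intro ε hε
  obtain ⟨Q, -, -, J, hJ, hle⟩ := Pool.Agent.X281.SE.typ_density (R := R) (k := k) d hd 1 1
    one_ne_zero ε hε
  refine ⟨J, hJ, le_trans ?_ hle⟩
  have hsub : (Exceptional.{v, w, y} R k d : Set (Index d → R)) ⊆
      {c | ¬ ∀ j, Pool.Agent.X281.SEI.GoodV
        (fun κ _ c => Pool.Agent.X281.SE.TypC d κ c) (Q j).1 (Q j).2 k c} := by
    intro c hc hgood
    obtain ⟨h1, h2⟩ := hgood 0
    apply hc
    obtain ⟨h3, h4, h5⟩ := Pool.Agent.X281.SE.typ_ext.{v, w, y} d _ _ _ _ h2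
    refine ⟨h1, fun i => ⟨(h3 i).2, (h3 i).1⟩, h4, ?_⟩
    intro D hD hDd e L _ _ _ m hm n hDn
    obtain ⟨⟨k1, k2, k3⟩, -⟩ := h5 D (by omega) (fun i => by
      have := hDd i
      rwa [show (poly k c i).natDegree = d i from (h3 i).2] at this) L m hm n hDn e
    refine ⟨⟨?_, ?_⟩, ?_⟩
    · rintro ⟨x, y, hxy⟩
      exact k1 x y hxy
    · rintro ⟨r, hr⟩
      exact k2 r hr
    · intro F Ω _ _ _ _ _ _ _ x y M hxy hM
      have hcl : IsAlgClosed Ω := IsAlgClosure.isAlgClosed F
      have halg : Algebra.IsAlgebraic F Ω := IsAlgClosure.isAlgebraic
      have h6 := k3 F Ω M hM.1 x y hxy hM.2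
      exact ⟨fun s => h6.false ⟨s.toHom, s.cont, fun σ c z hz => s.compat σ c z hz⟩⟩
  exact_mod_cast Set.ncard_le_ncard (Set.image_mono hsub) (Set.toFinite _)

end Pool.Agent.Results.MP_8312c9_nt.CurvesOfEveryType
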