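import Pool.Agent.X20.Tr.Sqf
import Pool.Agent.Results.MP_c1dca2_ag.TwistsWithMixedFactors
import Pool.Agent.Results.MP_2f3286_ag.AllEvenFactors

/-!
# The birational section conjecture for the quadratic twists by `± ⌊α n ^ c⌋` of hyperelliptic curves

From Mathlib: `dimH E`: the Hausdorff dimension; `⌊x⌋₊`: the integer part; `Finset.Icc 1 N`: the integers from `1` to
`N`. From the team's `TwistsWithMixedFactors`: `Factors f`: the `f k ∈ ℤ[x]` are irreducible over `ℚ`, pairwise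
non-associated, of even total degree, and at least four of them have odd degree; from `AllEvenFactors`: `EvenFactors g`: all
irreducible factors of `g` over `ℚ` have even degree; from both: `NoPoint n d g`: the smooth projective curve
`d y ^ n = g(x)` has no rational point; `NoSection n d g`: for every field `F` over `ℚ` that contains a point of this curve,
for instance its function field, and every set `U` of valuation rings of `F` over `ℚ` there is no section of
`π₁(U) = Gal(F_U/F) → G_ℚ` (for `U` empty: of `Gal(F̄/F) → G_ℚ`); `Exceptional g d`: for some even `n ≥ 2` the curve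
`d y ^ n = g(x)` has a rational point or a section.
-/

set_option autoImplicit false

open Finset Filter Polynomial
open Pool.Agent.X20.Tr

namespace Pool.Agent.Results.MP_8312c9_nt.SparseSectionsOfTwists

universe v w

lemma countable_rat : Countable ℚ[X] := by
  rw [← Cardinal.mk_le_aleph0_iff]
  refine Polynomial.cardinalMk_le_max.trans ?_
  rw [max_le_iff]
  exact ⟨Cardinal.mk_le_aleph0_iff.2 inferInstance, le_refl _⟩

open Classical in
/-- For every real `c > 1` there are `κ > 0` and a set `E` of real numbers of Hausdorff dimension at most `1 - κ`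
such that for every real `α > 0` outside `E`, writing `m(n) = ⌊α n ^ c⌋`:

* for all large `N` at least `N / 24` of the `m(n)`, `n ≤ N`, are squarefree;
* for EVERY system `f` with `Factors f` and without linear members, and for EVERY squarefree `g ∈ ℚ[x]` of degree at least
  `4` with `EvenFactors g`, there is `δ > 0` such that for both signs, some `C` and all large `N`, with at most
  `C N (log N) ^ (-δ)` exceptions, the `n ≤ N` with squarefree `m(n)` have the property that for all even `j ≥ 2` the curves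
  `d y ^ j = ∏ k, f k (x)` and `d y ^ j = g(x)`, `d = ± m(n)`, have no rational point and no section (also birationally). -/
theorem result (c : ℝ) (hc : 1 < c) : ∃ κ : ℝ, 0 < κ ∧ κ < 1 ∧ ∃ E : Set ℝ, dimH E ≤ ENNReal.ofReal (1 - κ) ∧
    ∀ α : ℝ, 0 < α → α ∉ E →
      (∃ N₀ : ℕ, ∀ N : ℕ, N₀ ≤ N →
        (N : ℝ) / 24 ≤ (((Icc 1 N).filter (fun n : ℕ => Squarefree ⌊α * (n : ℝ) ^ c⌋₊)).card : ℝ)) ∧
      (∀ (k : ℕ) (f : Fin k → ℤ[X]), MP_c1dca2_ag.TwistsWithMixedFactors.Factors f → (∀ i, (f i).natDegree ≠ 1) →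
        ∃ δ : ℝ, 0 < δ ∧ ∀ s : ℤ, (s = 1 ∨ s = -1) → ∃ C : ℝ, ∃ N₀ : ℕ, ∀ N : ℕ, N₀ ≤ N →
          (((Icc 1 N).filter (fun n : ℕ => Squarefree ⌊α * (n : ℝ) ^ c⌋₊ ∧
            MP_c1dca2_ag.TwistsWithMixedFactors.Exceptional.{v, w} (∏ i, (f i).map (Int.castRingHom ℚ))
              (s * ((⌊α * (n : ℝ) ^ c⌋₊ : ℕ) : ℤ)))).card : ℝ) ≤ C * N * (Real.log N) ^ (-δ)) ∧
      (∀ g : ℚ[X], Squarefree g → 4 ≤ g.natDegree → MP_2f3286_ag.AllEvenFactors.EvenFactors g →
        ∃ δ : ℝ, 0 < δ ∧ ∀ s : ℤ, (s = 1 ∨ s = -1) → ∃ C : ℝ, ∃ N₀ : ℕ, ∀ N : ℕ, N₀ ≤ N →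
          (((Icc 1 N).filter (fun n : ℕ => Squarefree ⌊α * (n : ℝ) ^ c⌋₊ ∧
            MP_2f3286_ag.AllEvenFactors.Exceptional.{v, w} g
              (s * ((⌊α * (n : ℝ) ^ c⌋₊ : ℕ) : ℤ)))).card : ℝ) ≤ C * N * (Real.log N) ^ (-δ)) := by
  obtain ⟨κ, hκ0, hκ1, H⟩ := sparse_sqf c hc
  have := countable_systems
  have := countable_rat
  obtain ⟨E, hE, h⟩ := H (((k : ℕ) × (Fin k → ℤ[X])) ⊕ ℚ[X]) (fun i d => match i with
    | Sum.inl j => MP_c1dca2_ag.TwistsWithMixedFactors.Exceptional.{v, w} (∏ i, (j.2 i).map (Int.castRingHom ℚ)) d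
    | Sum.inr g => MP_2f3286_ag.AllEvenFactors.Exceptional.{v, w} g d)
  refine ⟨κ, hκ0, hκ1, E, hE, fun α hα hαE => ⟨(h α hα hαE).1, fun k f hf hl => ?_, fun g hg h4 he => ?_⟩⟩
  · obtain ⟨δ, hδ, C, hC⟩ := MP_c1dca2_ag.TwistsWithMixedFactors.result.{v, w}.1 (Fin k) f hf hl
    refine ⟨δ, hδ, fun s hs => ?_⟩
    obtain ⟨C', N₀, h1⟩ := (h α hα hαE).2 (Sum.inl ⟨k, f⟩) s hs δ C hδ ⟨3, hC⟩
    exact ⟨C', N₀, fun N hN => le_trans (le_of_eq (congrArg Nat.cast (card_filt _ fun _ => Iff.rfl))) (h1 N hN)⟩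
  · obtain ⟨δ, hδ, C, hC⟩ := MP_2f3286_ag.AllEvenFactors.result.{v, w}.1 g hg h4 he
    refine ⟨δ, hδ, fun s hs => ?_⟩
    obtain ⟨C', N₀, h1⟩ := (h α hα hαE).2 (Sum.inr g) s hs δ C hδ ⟨2, hC⟩
    exact ⟨C', N₀, fun N hN => le_trans (le_of_eq (congrArg Nat.cast (card_filt _ fun _ => Iff.rfl))) (h1 N hN)⟩

end Pool.Agent.Results.MP_8312c9_nt.SparseSectionsOfTwists
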